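import Pool.Agent.H73.SMD.Stmts
import Pool.Agent.H24.LPC.RKC

/-!
Row RET of the board `smd`
-/

set_option autoImplicit false

open Set Filter Topology MeasureTheory Metric

namespace Pool.SMD

open Pool.PHS Pool.LPC

theorem ret_basis (v : Cn 2) (hv : v ≠ 0) : ∃ e : Cn 2, v 0 * e 1 - v 1 * e 0 ≠ 0 := by
  by_cases h0 : v 0 = 0
  · refine ⟨![1, 0], ?_⟩
    have h1 : v 1 ≠ 0 := by
      intro h1
      apply hv
      ext i
      fin_cases i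
      · exact h0
      · exact h1
    simpa using h1
  · refine ⟨![0, 1], ?_⟩
    simpa using h0

theorem ret_rank (D : Set (Cn 2)) (h : Cn 2 → Cn 2) (hj : ∀ z ∈ D, jac h z = 0) :
    ∀ z ∈ D, Module.finrank ℂ (LinearMap.range (fderiv ℂ h z).toLinearMap) ≤ 1 := by
  intro z hz
  have hdet : LinearMap.det (fderiv ℂ h z).toLinearMap = 0 := hj z hz
  have hlt := LinearMap.range_lt_top_of_det_eq_zero hdet
  have h3 := Submodule.finrank_lt hlt.ne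
  have h4 : Module.finrank ℂ (Cn 2) = 2 := by simp
  rw [h4] at h3
  exact Nat.lt_succ_iff.1 h3

theorem RET_thm (hLEV : LEVStmt) : RETStmt := by
  intro D h γ t₀ R hD hh hj hR hγ hfix hv
  set v := deriv γ t₀ with hvdef
  obtain ⟨e, he⟩ := ret_basis v hv
  have hcd : ContDiffOn ℂ 1 γ (ball t₀ R) := hγ.contDiffOn isOpen_ball
  have hst : HasStrictDerivAt γ v t₀ :=
    (hcd.contDiffAt (isOpen_ball.mem_nhds (mem_ball_self hR))).hasStrictDerivAt (by norm_num)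
  -- the map `Ψ`
  have hΨ : HasStrictFDerivAt (fun p : ℂ × ℂ => γ (t₀ + p.1) + p.2 • e)
      ((ContinuousLinearMap.fst ℂ ℂ ℂ).smulRight v + (ContinuousLinearMap.snd ℂ ℂ ℂ).smulRight e)
      ((0 : ℂ), (0 : ℂ)) := by
    have a1 : HasStrictFDerivAt (fun p : ℂ × ℂ => t₀ + p.1) (ContinuousLinearMap.fst ℂ ℂ ℂ)
        ((0 : ℂ), (0 : ℂ)) := hasStrictFDerivAt_fst.const_add t₀
    have a2 : HasStrictFDerivAt γ (ContinuousLinearMap.smulRight (1 : ℂ →L[ℂ] ℂ) v)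
        ((fun p : ℂ × ℂ => t₀ + p.1) ((0 : ℂ), (0 : ℂ))) := by
      simp only [add_zero]
      exact hst.hasStrictFDerivAt
    have a3 := a2.comp ((0 : ℂ), (0 : ℂ)) a1
    have a4 : HasStrictFDerivAt (fun p : ℂ × ℂ => p.2 • e)
        ((ContinuousLinearMap.snd ℂ ℂ ℂ).smulRight e) ((0 : ℂ), (0 : ℂ)) :=
      hasStrictFDerivAt_snd.smul_const e
    have a5 := a3.add a4
    refine a5.congr_fderiv ?_
    ext x <;> simp
  have hsurj : ((ContinuousLinearMap.fst ℂ ℂ ℂ).smulRight v +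
      (ContinuousLinearMap.snd ℂ ℂ ℂ).smulRight e).range = ⊤ := by
    rw [LinearMap.range_eq_top]
    intro y
    refine ⟨((y 0 * e 1 - y 1 * e 0) / (v 0 * e 1 - v 1 * e 0),
      (v 0 * y 1 - v 1 * y 0) / (v 0 * e 1 - v 1 * e 0)), ?_⟩
    ext i
    fin_cases i
    · show (y 0 * e 1 - y 1 * e 0) / (v 0 * e 1 - v 1 * e 0) * v 0 +
        (v 0 * y 1 - v 1 * y 0) / (v 0 * e 1 - v 1 * e 0) * e 0 = y 0
      rw [div_mul_eq_mul_div, div_mul_eq_mul_div, ← add_div, div_eq_iff he]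
      ring
    · show (y 0 * e 1 - y 1 * e 0) / (v 0 * e 1 - v 1 * e 0) * v 1 +
        (v 0 * y 1 - v 1 * y 0) / (v 0 * e 1 - v 1 * e 0) * e 1 = y 1
      rw [div_mul_eq_mul_div, div_mul_eq_mul_div, ← add_div, div_eq_iff he]
      ring
  have hΨ0 : (fun p : ℂ × ℂ => γ (t₀ + p.1) + p.2 • e) ((0 : ℂ), (0 : ℂ)) = γ t₀ := by simp
  have hmap := (hΨ.map_nhds_eq_of_surj hsurj).trans (congrArg 𝓝 hΨ0)
  have hcont : ContinuousAt (fun p : ℂ × ℂ => γ (t₀ + p.1) + p.2 • e) ((0 : ℂ), (0 : ℂ)) :=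
    hΨ.continuousAt
  have hDn : D ∈ 𝓝 (γ t₀) := hD.mem_nhds (hfix t₀ (mem_ball_self hR)).1
  have hpre : (fun p : ℂ × ℂ => γ (t₀ + p.1) + p.2 • e) ⁻¹' D ∈ 𝓝 ((0 : ℂ), (0 : ℂ)) := by
    have hc2 := hcont.tendsto
    rw [show 𝓝 ((fun p : ℂ × ℂ => γ (t₀ + p.1) + p.2 • e) ((0 : ℂ), (0 : ℂ))) = 𝓝 (γ t₀) from
      congrArg 𝓝 hΨ0] at hc2
    exact hc2 hDn
  obtain ⟨R₁, hR₁, hR₁D⟩ := Metric.mem_nhds_iff.1 hpre
  have hvpos : 0 < ‖v‖ := norm_pos_iff.2 hv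
  have hlo := hst.hasDerivAt.isLittleO.def (half_pos hvpos)
  obtain ⟨R₂, hR₂, hR₂b⟩ := Metric.mem_nhds_iff.1 hlo
  set R' := min R₁ (min R₂ R) with hR'
  have hR'0 : 0 < R' := lt_min hR₁ (lt_min hR₂ hR)
  have hR'1 : R' ≤ R₁ := min_le_left _ _
  have hR'2 : R' ≤ R₂ := (min_le_right _ _).trans (min_le_left _ _)
  have hR'3 : R' ≤ R := (min_le_right _ _).trans (min_le_right _ _)
  have hUo : IsOpen (ball (0 : ℂ) R' ×ˢ ball (0 : ℂ) R') := isOpen_ball.prod isOpen_ball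
  have hmaps : MapsTo (fun p : ℂ × ℂ => γ (t₀ + p.1) + p.2 • e)
      (ball (0 : ℂ) R' ×ˢ ball (0 : ℂ) R') D := by
    intro p hp
    apply hR₁D
    have : p ∈ ball (0 : ℂ) R₁ ×ˢ ball (0 : ℂ) R₁ :=
      ⟨ball_subset_ball hR'1 hp.1, ball_subset_ball hR'1 hp.2⟩
    rwa [ball_prod_same] at this
  have hball : ∀ u ∈ ball (0 : ℂ) R', t₀ + u ∈ ball t₀ R := by
    intro u hu
    rw [mem_ball_iff_norm, add_sub_cancel_left]
    exact (mem_ball_zero_iff.1 hu).trans_le hR'3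
  have hΨd : DifferentiableOn ℂ (fun p : ℂ × ℂ => γ (t₀ + p.1) + p.2 • e)
      (ball (0 : ℂ) R' ×ˢ ball (0 : ℂ) R') := by
    refine DifferentiableOn.add ?_ ?_
    · refine hγ.comp (t := ball t₀ R) (f := fun p : ℂ × ℂ => t₀ + p.1) ?_ ?_
      · exact (differentiable_fst.const_add t₀).differentiableOn
      · intro p hp
        exact hball _ hp.1
    · exact (differentiable_snd.smul_const e).differentiableOn
  have hEd : DifferentiableOn ℂ (fun p : ℂ × ℂ => h (γ (t₀ + p.1) + p.2 • e))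
      (ball (0 : ℂ) R' ×ˢ ball (0 : ℂ) R') := hh.comp hΨd hmaps
  have hrk := RKC_thm 2 D (ball (0 : ℂ) R' ×ˢ ball (0 : ℂ) R') h _
    (fun p : ℂ × ℂ => h (γ (t₀ + p.1) + p.2 • e)) hD hUo hh hΨd hmaps (fun p _ => rfl)
    (ret_rank D h hj)
  have hE0 : ∀ u ∈ ball (0 : ℂ) R', h (γ (t₀ + u) + (0 : ℂ) • e) = γ (t₀ + u) := by
    intro u hu
    rw [zero_smul, add_zero]
    exact (hfix _ (hball u hu)).2
  obtain ⟨κ, L, hκ, hL, hlev⟩ := hLEV 2 1 R' (‖v‖ / 2) (2 * ‖v‖)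
    (fun p : ℂ × ℂ => h (γ (t₀ + p.1) + p.2 • e)) le_rfl hR'0 (half_pos hvpos) (by positivity)
    hEd hrk (by
      intro u hu
      have h0 : (0 : ℂ) ∈ ball (0 : ℂ) R' := mem_ball_self hR'0
      have e1 : h (γ (t₀ + u) + (0 : ℂ) • e) = γ (t₀ + u) := hE0 u hu
      have e2 : h (γ (t₀ + 0) + (0 : ℂ) • e) = γ (t₀ + 0) := hE0 0 h0
      show ‖v‖ / 2 * ‖u‖ ^ 1 ≤ ‖h (γ (t₀ + u) + (0 : ℂ) • e) - h (γ (t₀ + 0) + (0 : ℂ) • e)‖ ∧
        ‖h (γ (t₀ + u) + (0 : ℂ) • e) - h (γ (t₀ + 0) + (0 : ℂ) • e)‖ ≤ 2 * ‖v‖ * ‖u‖ ^ 1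
      rw [e1, e2, add_zero, pow_one]
      have hu2 : t₀ + u ∈ ball t₀ R₂ := by
        rw [mem_ball_iff_norm, add_sub_cancel_left]
        exact (mem_ball_zero_iff.1 hu).trans_le hR'2
      have h3 : ‖γ (t₀ + u) - γ t₀ - (t₀ + u - t₀) • v‖ ≤ ‖v‖ / 2 * ‖t₀ + u - t₀‖ := hR₂b hu2
      rw [add_sub_cancel_left] at h3
      have h4 : ‖u • v‖ = ‖u‖ * ‖v‖ := norm_smul u v
      constructor
      · have h5 := norm_sub_norm_le (u • v) (u • v - (γ (t₀ + u) - γ t₀))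
        have h6 : u • v - (u • v - (γ (t₀ + u) - γ t₀)) = γ (t₀ + u) - γ t₀ := by abel
        rw [h6, norm_sub_rev (u • v)] at h5
        nlinarith
      · have h5 := norm_add_le (γ (t₀ + u) - γ t₀ - u • v) (u • v)
        rw [sub_add_cancel] at h5
        nlinarith [norm_nonneg u, norm_nonneg v, mul_nonneg (norm_nonneg u) (norm_nonneg v)])
  set δ := min R' (min (κ / 2) (κ * (κ / 2))) with hδ
  have hδ0 : 0 < δ := lt_min hR'0 (lt_min (by positivity) (by positivity))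
  have hδ1 : δ ≤ R' := min_le_left _ _
  have hδ2 : δ ≤ κ / 2 := (min_le_right _ _).trans (min_le_left _ _)
  have hδ3 : δ ≤ κ * (κ / 2) := (min_le_right _ _).trans (min_le_right _ _)
  have hUn : ball (0 : ℂ) δ ×ˢ ball (0 : ℂ) δ ∈ 𝓝 ((0 : ℂ), (0 : ℂ)) :=
    prod_mem_nhds (ball_mem_nhds _ hδ0) (ball_mem_nhds _ hδ0)
  have himg : (fun p : ℂ × ℂ => γ (t₀ + p.1) + p.2 • e) '' (ball (0 : ℂ) δ ×ˢ ball (0 : ℂ) δ) ∈
      𝓝 (γ t₀) := by
    rw [← hmap]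
    exact image_mem_map hUn
  refine ⟨interior ((fun p : ℂ × ℂ => γ (t₀ + p.1) + p.2 • e) ''
    (ball (0 : ℂ) δ ×ˢ ball (0 : ℂ) δ)) ∩ D, isOpen_interior.inter hD,
    ⟨mem_interior_iff_mem_nhds.2 himg, mem_of_mem_nhds hDn⟩, inter_subset_right, ?_⟩
  intro y hy
  obtain ⟨⟨u, w⟩, ⟨hu, hw⟩, rfl⟩ := interior_subset hy.1
  have hu' : ‖u‖ ≤ κ / 2 := (mem_ball_zero_iff.1 hu).le.trans hδ2
  have hw' : ‖w‖ ≤ κ * (κ / 2) ^ 1 := by
    rw [pow_one]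
    exact (mem_ball_zero_iff.1 hw).le.trans hδ3
  obtain ⟨u', -, hu'R, hE⟩ := hlev (κ / 2) u w (by positivity) (by linarith) hu' hw'
  have hu'b : u' ∈ ball (0 : ℂ) R' := mem_ball_zero_iff.2 hu'R
  have hE' : γ (t₀ + u') = h (γ (t₀ + u) + w • e) := by
    rw [← hE0 u' hu'b]
    exact hE
  show h (γ (t₀ + u) + w • e) ∈ D ∧ h (h (γ (t₀ + u) + w • e)) = h (γ (t₀ + u) + w • e)
  rw [← hE']
  exact hfix _ (hball u' hu'b)

end Pool.SMD
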